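import Pool.Agent.P.MP_60620c_an.Plane

namespace Pool.Agent.Results.MP_60620c_an.CantorDoubles

open MeasureTheory Set Pool.Agent.P.MP_60620c_an

/-- There are a compact set `S` of slopes inside the middle-thirds Cantor set and, for each
`s ∈ S`, a unit segment from `p s` to `q s` of slope `s`, depending continuously on `s`, such that
the union of the segments is Lebesgue null while the union of their doubles (a compact set)
has positive Lebesgue measure. -/
theorem result :
    ∃ (S : Set ℝ) (p q : ℝ → EuclideanSpace ℝ (Fin 2)),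
      S ⊆ cantorSet ∧
      (∀ s ∈ S, dist (p s) (q s) = 1 ∧ p s 0 ≠ q s 0 ∧ (q s 1 - p s 1) / (q s 0 - p s 0) = s) ∧
      IsCompact S ∧ ContinuousOn p S ∧ ContinuousOn q S ∧
      volume (⋃ s ∈ S, segment ℝ (p s) (q s)) = 0 ∧
      IsCompact (⋃ s ∈ S,
        (fun x => midpoint ℝ (p s) (q s) + (2 : ℝ) • (x - midpoint ℝ (p s) (q s))) ''
          segment ℝ (p s) (q s)) ∧
      0 < volume (⋃ s ∈ S,
        (fun x => midpoint ℝ (p s) (q s) + (2 : ℝ) • (x - midpoint ℝ (p s) (q s))) ''
          segment ℝ (p s) (q s)) := by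
  obtain ⟨S, β, hSC, hS, hβ, hnull, hpos⟩ := exists_lines
  let p : ℝ → EuclideanSpace ℝ (Fin 2) := fun s => WithLp.toLp 2 ![-hw s, β s - s * hw s]
  let q : ℝ → EuclideanSpace ℝ (Fin 2) := fun s => WithLp.toLp 2 ![hw s, β s + s * hw s]
  have p0 : ∀ s, p s 0 = -hw s := fun s => rfl
  have p1 : ∀ s, p s 1 = β s - s * hw s := fun s => rfl
  have q0 : ∀ s, q s 0 = hw s := fun s => rfl
  have q1 : ∀ s, q s 1 = β s + s * hw s := fun s => rfl
  have hwc : ContinuousOn hw S := continuous_hw.continuousOn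
  have hp : ContinuousOn p S := by
    refine (PiLp.continuous_toLp 2 _).comp_continuousOn (continuousOn_pi.mpr fun i => ?_)
    fin_cases i
    · exact hwc.neg
    · exact hβ.sub (continuousOn_id.mul hwc)
  have hq : ContinuousOn q S := by
    refine (PiLp.continuous_toLp 2 _).comp_continuousOn (continuousOn_pi.mpr fun i => ?_)
    fin_cases i
    · exact hwc
    · exact hβ.add (continuousOn_id.mul hwc)
  have hmid : ∀ (a b x : EuclideanSpace ℝ (Fin 2)),
      midpoint ℝ a b + (2 : ℝ) • (x - midpoint ℝ a b) =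
        (2 : ℝ) • x - (1 / 2 : ℝ) • (a + b) := by
    intro a b x
    rw [midpoint_eq_smul_add]
    have : (⅟2 : ℝ) = 1 / 2 := by simp
    rw [this]
    module
  refine ⟨S, p, q, hSC, fun s _ => ⟨?_, ?_, ?_⟩, hS, hp, hq, ?_, ?_, ?_⟩
  · rw [EuclideanSpace.dist_eq, Fin.sum_univ_two, p0, p1, q0, q1, Real.dist_eq, Real.dist_eq,
      sq_abs, sq_abs, Real.sqrt_eq_one]
    linarith [hw_sq s]
  · rw [p0, q0]
    linarith [hw_pos s]
  · rw [p0, p1, q0, q1]
    have := (hw_pos s).ne'
    field_simp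
    ring
  · have h1 := sweep_null hS hβ (isCompact_Icc (a := (-1 / 2 : ℝ)) (b := 1 / 2))
      fun x hx => hnull x (abs_le.mpr ⟨by linarith [hx.1], hx.2⟩)
    refine measure_mono_null ?_ (measurePreserving_coords.quasiMeasurePreserving.preimage_null h1)
    intro v hv
    simp only [mem_iUnion, exists_prop] at hv
    obtain ⟨s, hs, a, b, ha, hb, hab, rfl⟩ := hv
    have e0 : (a • p s + b • q s) 0 = (b - a) * hw s := by
      simp only [PiLp.add_apply, PiLp.smul_apply, smul_eq_mul, p0, q0]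
      ring
    have e1 : (a • p s + b • q s) 1 = s * ((b - a) * hw s) + β s := by
      simp only [PiLp.add_apply, PiLp.smul_apply, smul_eq_mul, p1, q1]
      linear_combination (β s) * hab
    refine ⟨((b - a) * hw s, s), ⟨⟨?_, ?_⟩, hs⟩, ?_⟩
    · nlinarith [hw_pos s, hw_le s]
    · nlinarith [hw_pos s, hw_le s]
    · simp only [coords, e0, e1]
  · have : (⋃ s ∈ S,
        (fun x => midpoint ℝ (p s) (q s) + (2 : ℝ) • (x - midpoint ℝ (p s) (q s))) ''
          segment ℝ (p s) (q s)) = (fun z : ℝ × ℝ =>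
          (2 : ℝ) • ((1 - z.2) • p z.1 + z.2 • q z.1) - (1 / 2 : ℝ) • (p z.1 + q z.1)) ''
            (S ×ˢ Icc 0 1) := by
      ext v
      simp only [mem_iUnion, exists_prop, hmid, segment_eq_image, mem_image, mem_prod]
      constructor
      · rintro ⟨s, hs, _, ⟨t, ht, rfl⟩, rfl⟩
        exact ⟨(s, t), ⟨hs, ht⟩, rfl⟩
      · rintro ⟨⟨s, t⟩, ⟨hs, ht⟩, rfl⟩
        exact ⟨s, hs, _, ⟨t, ht, rfl⟩, rfl⟩
    rw [this]
    have hp' : ContinuousOn (fun z : ℝ × ℝ => p z.1) (S ×ˢ Icc (0 : ℝ) 1) :=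
      hp.comp continuousOn_fst fun z hz => hz.1
    have hq' : ContinuousOn (fun z : ℝ × ℝ => q z.1) (S ×ˢ Icc (0 : ℝ) 1) :=
      hq.comp continuousOn_fst fun z hz => hz.1
    refine (hS.prod isCompact_Icc).image_of_continuousOn ?_
    exact ((((continuousOn_const.sub continuousOn_snd).smul hp').add
      (continuousOn_snd.smul hq')).const_smul (2 : ℝ)).sub ((hp'.add hq').const_smul (1 / 2 : ℝ))
  · have hN : IsCompact Near := isCompact_Icc
    have h1 := sweep_pos hS hβ hN (by simp [Near]; norm_num) hpos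
    rw [← measurePreserving_coords.measure_preimage
      (isCompact_sweep hS hβ hN).isClosed.measurableSet.nullMeasurableSet] at h1
    refine lt_of_lt_of_le (pos_iff_ne_zero.mpr h1) (measure_mono ?_)
    rintro v ⟨⟨x, s⟩, ⟨hx, hs⟩, hv⟩
    obtain ⟨v0, v1⟩ := Prod.mk.inj hv
    simp only at hx hs v0 v1
    simp only [mem_iUnion, exists_prop, hmid]
    have hs01 := cantorSet_subset_unitInterval (hSC hs)
    have hw1 := le_hw hs01.1 hs01.2
    have hw0 := hw_pos s
    have ht : x / (4 * hw s) ≤ 1 / 2 := by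
      rw [div_le_iff₀ (by positivity)]
      linarith [hx.2]
    have ht0 : 0 ≤ x / (4 * hw s) := div_nonneg (by linarith [hx.1]) (by positivity)
    refine ⟨s, hs, _, ⟨1 / 2 - x / (4 * hw s), 1 / 2 + x / (4 * hw s), by linarith, by linarith,
      by ring, rfl⟩, ?_⟩
    ext i
    fin_cases i
    · simp only [Fin.zero_eta, PiLp.sub_apply, PiLp.add_apply, PiLp.smul_apply, smul_eq_mul, p0,
        q0, ← v0]
      field_simp
      ring
    · simp only [Fin.mk_one, PiLp.sub_apply, PiLp.add_apply, PiLp.smul_apply, smul_eq_mul, p1,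
        q1, ← v1]
      field_simp
      ring

end Pool.Agent.Results.MP_60620c_an.CantorDoubles
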